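import Pool.Agent.Helper69.HA.Defs3
import Pool.Agent.Helper72.HA.Names

/-!
# Project HA, HA-12: the values of the names in the countable transitive model
-/

set_option autoImplicit false
set_option linter.unusedSectionVars false

namespace Pool.Agent.Helper69.HA

open Set Pool.Agent.Helper33.HM Pool.Agent.Helper33.HMG Pool.Agent.Helper32.HB
open Pool.Agent.Helper52.MA (El IsOmega1 setsM pairN numN on wN setN st PCCC Tr Meets mam_e)

section NmsMgen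

universe u

variable {P : Type u} [Preorder P] [OrderTop P] {Ω : Type} [LinearOrder Ω] [WellFoundedLT Ω]
variable {R : Type} {W : R → (ℕ → Nm P) → P → Nm P → Prop} (g : Gen W)

theorem nmsM_val_setN {A : Ω → RO P} {z : ZFSet.{0}} :
    z ∈ g.val (setN A) ↔ ∃ γ, on γ ∈ g.N ∧ Tr g (A γ) ∧ g.val (on γ) = z := by
  rw [setN, g.mem_val]
  constructor
  · rintro ⟨⟨⟨γ, p⟩, hp⟩, h1, ⟨k, hk⟩, h2⟩
    exact ⟨γ, h1, ⟨k, RO.mem_lower hk hp⟩, h2⟩
  · rintro ⟨γ, h1, ⟨k, hk⟩, h2⟩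
    exact ⟨⟨(γ, g.pc k), hk⟩, h1, ⟨k, le_rfl⟩, h2⟩

theorem nmsM_val_num (n : ℕ) : g.val (numN n : Nm P) = Gen.nat n := g.val_num n

theorem nmsM_tr_rstr {b : Ω → RO P} {δ γ : Ω} :
    Tr g (rstr b δ γ) ↔ γ < δ ∧ Tr g (b γ) := by
  unfold rstr
  by_cases h : γ < δ
  · rw [if_pos h]
    exact ⟨fun h1 => ⟨h, h1⟩, fun h1 => h1.2⟩
  · rw [if_neg h]
    exact ⟨fun h1 => absurd h1 (Pool.Agent.Helper52.MA.not_tr_bot g), fun h1 => absurd h1.1 h⟩

theorem nmsM_eq_of_feq {b b' : Ω → RO P} {δ : Ω} {p : P}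
    (h : feq (setN (rstr b δ)) (setN (rstr b' δ)) p) : p ∈ eqN b b' δ := by
  have key : ∀ (c c' : Ω → RO P), feq (setN (rstr c δ)) (setN (rstr c' δ)) p →
      ∀ γ, γ < δ → ∀ q, q ≤ p → q ∈ c γ → q ∈ c' γ := by
    intro c c' h γ hγ q hq hc
    have h1 : q ∈ st (setN (rstr c δ)) γ := by
      rw [Pool.Agent.Helper52.MA.st_setN]
      unfold rstr
      rw [if_pos hγ]
      exact hc
    have h2 : q ∈ st (setN (rstr c' δ)) γ := fmem_congr_right (feq_mono h hq) h1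
    rw [Pool.Agent.Helper52.MA.st_setN] at h2
    unfold rstr at h2
    rw [if_pos hγ] at h2
    exact h2
  rw [mem_eqN]
  exact fun γ hγ q hq => ⟨key b b' h γ hγ q hq, key b' b (feq_symm h) γ hγ q hq⟩

end NmsMgen

section Transfer

variable {Ω : Type} [LinearOrder Ω] [WellFoundedLT Ω] {e : Ω → ℕ → Ω → Prop}
  {code : Ordinal.{0} → Ω → Set (Cond Ordinal.{0} Ω)} {R : Type}
  {W : R → (ℕ → Nm (PC e code)) → PC e code → Nm (PC e code) → Prop}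

/-- The data of a condition increase. -/
theorem nmsM_le {p q : PC e code} (h : q ≤ p) (i : Ordinal.{0}) : (q.f i).Le (p.f i) :=
  (PC.le_iff.1 h i).1

theorem nmsM_Dv_mono {p q : PC e code} (h : q ≤ p) {i j : Ordinal.{0}} {δ : Ω} {v : Bool}
    (h' : p ∈ Dv i δ j v) : q ∈ Dv i δ j v := RO.mem_lower h h'

/-- Values at nodes can be given. -/
theorem nmsM_exists_val (p : PC e code) (i : Ordinal.{0}) (δ : Ω) (m : ℕ) :
    ∃ q, q ≤ p ∧ ∃ a k b, q ∈ Dv i δ k b ∧ (q.f k).c δ m = some a := by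
  classical
  obtain ⟨q, hq, -, k, b, hk⟩ := Dv_dense p i δ
  cases h : (q.f k).c δ m with
  | some a => exact ⟨q, hq, a, k, b, hk, h⟩
  | none =>
    have hfin : {z : Ω × ℕ | (if z.1 = δ ∧ z.2 = m then some 0 else (q.f k).c z.1 z.2) ≠
        (none : Option ℕ)}.Finite := by
      refine ((q.f k).finc.insert (δ, m)).subset ?_
      rintro ⟨δ', m'⟩ hz
      by_cases hd : δ' = δ ∧ m' = m
      · left
        rw [hd.1, hd.2]
      · right
        have hz' : (if δ' = δ ∧ m' = m then some 0 else (q.f k).c δ' m') ≠ none := hz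
        rw [if_neg hd] at hz'
        exact hz'
    let x : Dat Ω := ⟨fun δ' m' => if δ' = δ ∧ m' = m then some 0 else (q.f k).c δ' m',
      (q.f k).φ, (q.f k).F, hfin, (q.f k).finφ, (q.f k).finF⟩
    have hle : PC.put q k x ≤ q := by
      rw [PC.le_iff]
      intro i'
      rw [PC.put_f]
      by_cases hi : i' = k
      · subst hi
        rw [if_pos rfl]
        refine ⟨⟨?_, fun _ _ h => h, fun _ _ h => h⟩, ?_⟩
        · intro δ' m' a ha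
          change (if δ' = δ ∧ m' = m then some 0 else (q.f i').c δ' m') = some a
          by_cases hd : δ' = δ ∧ m' = m
          · rw [hd.1, hd.2, h] at ha
            cases ha
          · rw [if_neg hd]
            exact ha
        · intro ξ n δ' h1 h2
          have h1' : (q.f i').φ ξ = some n := h1
          exact absurd (h1'.symm.trans h2) (by simp)
      · rw [if_neg hi]
        refine ⟨Dat.Le.refl _, ?_⟩
        intro ξ n δ' h1 h2
        exact absurd (h1.symm.trans h2) (by simp)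
    refine ⟨_, hle.trans hq, 0, k, b, nmsM_Dv_mono hle hk, ?_⟩
    rw [PC.put_f, if_pos rfl]
    change (if δ = δ ∧ m = m then some 0 else (q.f k).c δ m) = some 0
    rw [if_pos ⟨rfl, rfl⟩]

/-- The place of the name `σ`. -/
theorem ix_spec (hix : ∀ U : Ω → RO (PC e code), ∃ i, ∀ γ, bt i γ = U γ) (σ : Nm (PC e code)) :
    ∀ γ : Ω, bt (ix (I := Ordinal.{0}) (Ω := Ω) σ) γ = st σ γ :=
  Classical.epsilon_spec (hix (st σ))

theorem nmsM_ix_spec (hix : ∀ U : Ω → RO (PC e code), ∃ i, ∀ γ, bt i γ = U γ) (σ : Nm (PC e code)) :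
    (bt (ix (I := Ordinal.{0}) (Ω := Ω) σ) : Ω → RO (PC e code)) = st σ :=
  funext (ix_spec hix σ)

variable (g : Gen W)

variable (hg : Meets Ω g) (hr : MeetsA g)
  (hix : ∀ U : Ω → RO (PC e code), ∃ i, ∀ γ, bt i γ = U γ)
include hg hr hix

theorem nmsM_EN_mem : EN e code ∈ g.N := by
  obtain ⟨k, ⟨x, hx, h⟩ | h⟩ := hr .setE [] (by simp)
  · have h' : x = EN e code := h
    rw [← h']; exact hx
  · exact absurd rfl (h _ le_rfl (EN e code))

theorem nmsM_eN_mem : eN (PC e code) e ∈ g.N := by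
  obtain ⟨k, ⟨x, hx, h⟩ | h⟩ := hr .sete [] (by simp)
  · have h' : x = eN (PC e code) e := h
    rw [← h']; exact hx
  · exact absurd rfl (h _ le_rfl (eN (PC e code) e))

theorem pre_mem {δ γ : Ω} {m : ℕ} (hδ : on δ ∈ g.N) (h : e δ m γ)
    (he : EnumL (fun x y => x < y) e) : on γ ∈ g.N := by
  obtain ⟨k, ⟨x, hx, h1⟩ | h1⟩ := hr (.pre m) [on δ] (by simp [hδ])
  · obtain ⟨δ', γ', h2, h3, rfl⟩ := h1
    have h2' : (on δ : Nm (PC e code)) = on δ' := h2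
    have h4 := Pool.Agent.Helper52.MA.on_injective h2'
    subst h4
    rw [he.func _ _ _ _ h h3]
    exact hx
  · exact absurd ⟨δ, γ, rfl, h, rfl⟩ (h1 _ le_rfl (on γ))

theorem nmsM_rst_mem {σ : Nm (PC e code)} (hσ : σ ∈ g.N) {δ : Ω} (hδ : on δ ∈ g.N) :
    setN (rstr (st σ) δ) ∈ g.N := by
  obtain ⟨k, ⟨x, hx, h1⟩ | h1⟩ := hr .rst [σ, on δ] (by simp [hσ, hδ])
  · obtain ⟨δ', h2, h3⟩ := h1
    have h2' : (on δ : Nm (PC e code)) = on δ' := h2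
    have h4 := Pool.Agent.Helper52.MA.on_injective h2'
    subst h4
    have h3' : x = setN (rstr (st σ) δ) := h3
    rw [← h3']
    exact hx
  · exact absurd ⟨δ, rfl, rfl⟩ (h1 _ le_rfl (setN (rstr (st σ) δ)))

theorem eM_of {δ γ : Ω} {m : ℕ} (hδ : on δ ∈ g.N) (hγ : on γ ∈ g.N) :
    eM g (mam_e g hδ) m (mam_e g hγ) ↔ e δ m γ := by
  have hn : (numN m : Nm (PC e code)) ∈ g.N := Pool.Agent.Helper52.MA.numN_mem g m
  have h1 := Pool.Agent.Helper52.MA.pairN_mem g hg hn hγ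
  have h2 := Pool.Agent.Helper52.MA.pairN_mem g hg hδ h1
  have hv : g.val (pairN (on δ) (pairN (numN m) (on γ))) =
      ZFSet.pair (mam_e g hδ).1 (ZFSet.pair (Gen.nat m) (mam_e g hγ).1) := by
    rw [Pool.Agent.Helper52.MA.val_pairN' g hg hδ h1, Pool.Agent.Helper52.MA.val_pairN' g hg hn hγ,
      nmsM_val_num]
    rfl
  unfold eM
  rw [← hv, eN, g.mem_val]
  constructor
  · rintro ⟨⟨⟨⟨δ', m', γ'⟩, hz⟩⟩, h3, -, h4⟩
    obtain ⟨l, hl⟩ := (g.eq_iff h3 h2).2 h4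
    have hl' : feq (pairN (on δ') (pairN (numN m') (on γ')))
      (pairN (on δ) (pairN (numN m) (on γ))) (g.pc l) := hl
    rw [Pool.Agent.Helper52.MA.feq_pairN, Pool.Agent.Helper52.MA.feq_pairN] at hl'
    have e1 := Pool.Agent.Helper52.MA.eq_of_feq_on hl'.1
    have e2 := Pool.Agent.Helper52.MA.eq_of_feq_numN hl'.2.1
    have e3 := Pool.Agent.Helper52.MA.eq_of_feq_on hl'.2.2
    rw [← e1, ← e2, ← e3]
    exact hz
  · intro h
    exact ⟨⟨⟨(δ, m, γ), h⟩⟩, h2, ⟨0, le_top⟩, rfl⟩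

theorem enumL_eM (he : EnumL (fun x y => x < y) e) :
    EnumL (fun x y : El (g.val (wN Ω)) => x.1 ∈ y.1) (eM g) := by
  refine ⟨?_, ?_, ?_⟩
  · intro δ m γ γ' h h'
    obtain ⟨δ, hδ, rfl⟩ := Pool.Agent.Helper52.MA.mam_surj g δ
    obtain ⟨γ, hγ, rfl⟩ := Pool.Agent.Helper52.MA.mam_surj g γ
    obtain ⟨γ', hγ', rfl⟩ := Pool.Agent.Helper52.MA.mam_surj g γ'
    rw [eM_of g hg hr hix] at h h'
    have h1 := he.func _ _ _ _ h h'
    subst h1
    rfl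
  · intro δ m γ h
    obtain ⟨δ, hδ, rfl⟩ := Pool.Agent.Helper52.MA.mam_surj g δ
    obtain ⟨γ, hγ, rfl⟩ := Pool.Agent.Helper52.MA.mam_surj g γ
    rw [eM_of g hg hr hix] at h
    exact (Pool.Agent.Helper52.MA.val_on_mem g hγ hδ).2 (he.below _ _ _ h)
  · intro γ δ h
    obtain ⟨δ, hδ, rfl⟩ := Pool.Agent.Helper52.MA.mam_surj g δ
    obtain ⟨γ, hγ, rfl⟩ := Pool.Agent.Helper52.MA.mam_surj g γ
    obtain ⟨m, hm⟩ := he.onto _ _ ((Pool.Agent.Helper52.MA.val_on_mem g hγ hδ).1 h)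
    exact ⟨m, (eM_of g hg hr hix hδ hγ).2 hm⟩

/-- The name of a quadruple. -/
theorem nmsM_quad {δ : Ω} (hδ : on δ ∈ g.N) {θ : Nm (PC e code)} (hθ : θ ∈ g.N) (m x : ℕ) :
    pairN (on δ) (pairN θ (pairN (numN m) (numN x))) ∈ g.N ∧
    g.val (pairN (on δ) (pairN θ (pairN (numN m) (numN x)))) =
      ZFSet.pair (mam_e g hδ).1
        (ZFSet.pair (g.val θ) (ZFSet.pair (Gen.nat m) (Gen.nat x))) := by
  have hm : (numN m : Nm (PC e code)) ∈ g.N := Pool.Agent.Helper52.MA.numN_mem g m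
  have hx : (numN x : Nm (PC e code)) ∈ g.N := Pool.Agent.Helper52.MA.numN_mem g x
  have h1 := Pool.Agent.Helper52.MA.pairN_mem g hg hm hx
  have h2 := Pool.Agent.Helper52.MA.pairN_mem g hg hθ h1
  refine ⟨Pool.Agent.Helper52.MA.pairN_mem g hg hδ h2, ?_⟩
  rw [Pool.Agent.Helper52.MA.val_pairN' g hg hδ h2, Pool.Agent.Helper52.MA.val_pairN' g hg hθ h1,
    Pool.Agent.Helper52.MA.val_pairN' g hg hm hx, nmsM_val_num, nmsM_val_num]
  rfl

theorem EM_of {σ : Nm (PC e code)} (hσ : σ ∈ g.N) {δ : Ω} (hδ : on δ ∈ g.N) {k m x : ℕ}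
    {j : Ordinal.{0}} {v : Bool} (h : g.pc k ∈ Dv (ix σ) δ j v)
    (h' : ((g.pc k).f j).c δ m = some x) :
    EM g (mam_e g hδ) {γ | γ ∈ brM g σ ∧ γ.1 ∈ g.val (on δ)} m x := by
  have hs := nmsM_rst_mem g hg hr hix hσ hδ
  obtain ⟨hq, hqv⟩ := nmsM_quad g hg hr hix hδ hs m x
  refine ⟨g.val (setN (rstr (st σ) δ)), ⟨_, hs, rfl⟩, ?_, ?_, ?_⟩
  · intro z hz
    obtain ⟨γ, h1, -, h2⟩ := (nmsM_val_setN g).1 hz
    exact (Pool.Agent.Helper52.MA.mem_val_wN g).2 ⟨γ, h1, h2⟩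
  · intro y
    obtain ⟨y, hy, rfl⟩ := Pool.Agent.Helper52.MA.mam_surj g y
    have e1 : (mam_e g hy).1 = g.val (on y) := rfl
    have e2 : (mam_e g hy ∈ {γ : El (g.val (wN Ω)) | γ ∈ brM g σ ∧ γ.1 ∈ g.val (on δ)}) ↔
        g.val (on y) ∈ g.val σ ∧ g.val (on y) ∈ g.val (on δ) := Iff.rfl
    rw [e2, e1, ← Pool.Agent.Helper52.MA.st_iff g hσ hy,
      ← Pool.Agent.Helper52.MA.st_iff g hs hy, Pool.Agent.Helper52.MA.st_setN, nmsM_tr_rstr,
      Pool.Agent.Helper52.MA.val_on_mem g hy hδ]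
    exact and_comm
  · rw [← hqv, EN, g.mem_val]
    refine ⟨⟨(ix (I := Ordinal.{0}) (Ω := Ω) σ, δ, m, x, g.pc k), ⟨j, v, h, h'⟩⟩, ?_, ⟨k, le_rfl⟩, ?_⟩
    · change pairN (on δ) (pairN (setN (rstr (bt (ix σ)) δ)) (pairN (numN m) (numN x))) ∈ g.N
      rw [nmsM_ix_spec hix]
      exact hq
    · change g.val (pairN (on δ) (pairN (setN (rstr (bt (ix σ)) δ)) (pairN (numN m) (numN x)))) = _
      rw [nmsM_ix_spec hix]

/-- The form of the elements of the relation. -/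
theorem nmsM_EM {δ : Ω} (hδ : on δ ∈ g.N) {θ : Nm (PC e code)} (hθ : θ ∈ g.N) {m x : ℕ}
    (h : ZFSet.pair (mam_e g hδ).1
        (ZFSet.pair (g.val θ) (ZFSet.pair (Gen.nat m) (Gen.nat x))) ∈ g.val (EN e code)) :
    ∃ (j k : Ordinal.{0}) (v : Bool) (l : ℕ), g.pc l ∈ Dv j δ k v ∧
      ((g.pc l).f k).c δ m = some x ∧ feq θ (setN (rstr (bt j) δ)) (g.pc l) := by
  obtain ⟨hq, hqv⟩ := nmsM_quad g hg hr hix hδ hθ m x
  rw [← hqv, EN, g.mem_val] at h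
  obtain ⟨⟨⟨j, δ', m', x', p⟩, ⟨k, v, hz, hz'⟩⟩, h3, ⟨l, hl⟩, h4⟩ := h
  obtain ⟨l', hl'⟩ := (g.eq_iff h3 hq).2 h4
  have h5 : feq (pairN (on δ') (pairN (setN (rstr (bt j) δ')) (pairN (numN m') (numN x'))))
    (pairN (on δ) (pairN θ (pairN (numN m) (numN x)))) (g.pc l') := hl'
  rw [Pool.Agent.Helper52.MA.feq_pairN, Pool.Agent.Helper52.MA.feq_pairN,
    Pool.Agent.Helper52.MA.feq_pairN] at h5
  obtain ⟨h6, h7, h8, h9⟩ := h5
  have e1 := Pool.Agent.Helper52.MA.eq_of_feq_on h6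
  have e2 := Pool.Agent.Helper52.MA.eq_of_feq_numN h8
  have e3 := Pool.Agent.Helper52.MA.eq_of_feq_numN h9
  subst e1 e2 e3
  have hz1 : p ∈ Dv j δ' k v := hz
  have hz2 : (p.f k).c δ' m' = some x' := hz'
  have hp : g.pc (max l l') ≤ p := (g.pc_le (le_max_left _ _)).trans hl
  exact ⟨j, k, v, max l l', nmsM_Dv_mono hp hz1, (nmsM_le hp k).c _ _ _ hz2,
    feq_symm (feq_mono h7 (g.pc_le (le_max_right _ _)))⟩

theorem EM_fun {δ : El (g.val (wN Ω))} {t : Set (El (g.val (wN Ω)))} {m x x' : ℕ}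
    (h : EM g δ t m x) (h' : EM g δ t m x') : x = x' := by
  obtain ⟨δ, hδ, rfl⟩ := Pool.Agent.Helper52.MA.mam_surj g δ
  obtain ⟨_, ⟨θ, hθ, rfl⟩, h1, h2, h3⟩ := h
  obtain ⟨_, ⟨θ', hθ', rfl⟩, h1', h2', h3'⟩ := h'
  have hval : g.val θ = g.val θ' := by
    ext z
    constructor
    · intro hz
      exact (h2' ⟨z, h1 z hz⟩).1 ((h2 ⟨z, h1 z hz⟩).2 hz)
    · intro hz
      exact (h2 ⟨z, h1' z hz⟩).1 ((h2' ⟨z, h1' z hz⟩).2 hz)
  obtain ⟨n, hn⟩ := (g.eq_iff hθ hθ').2 hval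
  obtain ⟨j, k, v, l, ha, hb, hc⟩ := nmsM_EM g hg hr hix hδ hθ h3
  obtain ⟨j', k', v', l', ha', hb', hc'⟩ := nmsM_EM g hg hr hix hδ hθ' h3'
  have hN : g.pc (max n (max l l')) ≤ g.pc n := g.pc_le (le_max_left _ _)
  have hL : g.pc (max n (max l l')) ≤ g.pc l :=
    g.pc_le ((le_max_left _ _).trans (le_max_right _ _))
  have hL' : g.pc (max n (max l l')) ≤ g.pc l' :=
    g.pc_le ((le_max_right _ _).trans (le_max_right _ _))
  have hf : feq (setN (rstr (bt j) δ)) (setN (rstr (bt j') δ)) (g.pc (max n (max l l'))) :=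
    feq_trans (feq_symm (feq_mono hc hL)) (feq_trans (feq_mono hn hN) (feq_mono hc' hL'))
  have hk := Dv_index (nmsM_eq_of_feq hf) (nmsM_Dv_mono hL ha) (nmsM_Dv_mono hL' ha')
  subst hk
  have e1 := (nmsM_le hL k).c _ _ _ hb
  have e2 := (nmsM_le hL' k).c _ _ _ hb'
  exact Option.some.inj (e1.symm.trans e2)

theorem EM_ex {σ : Nm (PC e code)} (hσ : σ ∈ g.N) (δ : El (g.val (wN Ω))) (m : ℕ) :
    ∃ x, EM g δ {γ | γ ∈ brM g σ ∧ γ.1 ∈ δ.1} m x := by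
  obtain ⟨δ, hδ, rfl⟩ := Pool.Agent.Helper52.MA.mam_surj g δ
  obtain ⟨n, ⟨x, -, h1⟩ | h1⟩ := hr (.val m) [σ, on δ] (by simp [hσ, hδ])
  · obtain ⟨δ', h2, a, k, b, -, h3, h4⟩ := h1
    have h2' : (on δ : Nm (PC e code)) = on δ' := h2
    have h5 := Pool.Agent.Helper52.MA.on_injective h2'
    subst h5
    have h3' : g.pc n ∈ Dv (ix (I := Ordinal.{0}) (Ω := Ω) σ) δ k b := h3
    exact ⟨a, EM_of g hg hr hix hσ hδ h3' h4⟩
  · exfalso
    obtain ⟨q, hq, a, k, b, h2, h3⟩ :=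
      nmsM_exists_val (g.pc n) (ix (I := Ordinal.{0}) (Ω := Ω) σ) δ m
    exact h1 q hq (numN a) ⟨δ, rfl, a, k, b, rfl, h2, h3⟩

/-- The name of the function in the model. -/
theorem phN_iff {σ : Nm (PC e code)} (hσ : σ ∈ g.N) {ξ : Ω} (hξ : on ξ ∈ g.N) {n : ℕ} :
    ZFSet.pair (g.val (on ξ)) (Gen.nat n) ∈ g.val (phN (Ω := Ω) (ix (Ω := Ω) σ)) ↔
      ∃ k, ((g.pc k).f (ix σ)).φ ξ = some n := by
  have hn : (numN n : Nm (PC e code)) ∈ g.N := Pool.Agent.Helper52.MA.numN_mem g n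
  have h2 := Pool.Agent.Helper52.MA.pairN_mem g hg hξ hn
  have hv : g.val (pairN (on ξ) (numN n)) = ZFSet.pair (g.val (on ξ)) (Gen.nat n) := by
    rw [Pool.Agent.Helper52.MA.val_pairN' g hg hξ hn, nmsM_val_num]
  rw [← hv, phN, g.mem_val]
  constructor
  · rintro ⟨⟨⟨ξ', n', p⟩, hz⟩, h3, ⟨l, hl⟩, h4⟩
    obtain ⟨l', hl'⟩ := (g.eq_iff h3 h2).2 h4
    have h5 : feq (pairN (on ξ') (numN n')) (pairN (on ξ) (numN n)) (g.pc l') := hl'
    rw [Pool.Agent.Helper52.MA.feq_pairN] at h5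
    have e1 := Pool.Agent.Helper52.MA.eq_of_feq_on h5.1
    have e2 := Pool.Agent.Helper52.MA.eq_of_feq_numN h5.2
    subst e1 e2
    exact ⟨l, (nmsM_le hl _).φ _ _ hz⟩
  · rintro ⟨k, hk⟩
    exact ⟨⟨(ξ, n, g.pc k), hk⟩, h2, ⟨k, le_rfl⟩, rfl⟩

end Transfer

end Pool.Agent.Helper69.HA
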